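import Pool.Agent.Helper317.Beta.Stmt
import Pool.Agent.Helper317.Syn

/-!
Truth of formulas in the standard numbers (set quantifiers are read over the empty family, so
only arithmetical formulas matter); tuples, Tarski conditions.
-/

namespace Pool.Agent.Helper317.Beta

open Pool.Agent.Helper317.SOA Pool.Agent.Helper317.Kap Function

deriving instance Countable for Tm
deriving instance Countable for Fm

/-- value of a term in an omega-model, as a natural number -/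
def tv (S : Set (Set ℕ)) (v : ℕ → ℕ) (t : Tm) : ℕ := Tm.val (omega S) v t

theorem tv_add (S : Set (Set ℕ)) (v : ℕ → ℕ) (s t : Tm) :
    tv S v (.add s t) = tv S v s + tv S v t := rfl
theorem tv_mul (S : Set (Set ℕ)) (v : ℕ → ℕ) (s t : Tm) :
    tv S v (.mul s t) = tv S v s * tv S v t := rfl

theorem tm_omega (S S' : Set (Set ℕ)) (t : Tm) (v : ℕ → ℕ) : tv S v t = tv S' v t := by
  induction t with
  | var i => rfl
  | zero => rfl
  | one => rfl
  | add s t hs ht => rw [tv_add, tv_add, hs, ht]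
  | mul s t hs ht => rw [tv_mul, tv_mul, hs, ht]

theorem sat_eqO (S : Set (Set ℕ)) (v : ℕ → ℕ) (V : ℕ → Set ℕ) (s t : Tm) :
    Sat (omega S) v V (.eq s t) ↔ tv S v s = tv S v t := Iff.rfl
theorem sat_ltO (S : Set (Set ℕ)) (v : ℕ → ℕ) (V : ℕ → Set ℕ) (s t : Tm) :
    Sat (omega S) v V (.lt s t) ↔ tv S v s < tv S v t := Iff.rfl
theorem sat_memO (S : Set (Set ℕ)) (v : ℕ → ℕ) (V : ℕ → Set ℕ) (t : Tm) (i : ℕ) :
    Sat (omega S) v V (.mem t i) ↔ tv S v t ∈ V i := Iff.rfl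

/-- value of a term in the standard numbers -/
def val (v : ℕ → ℕ) (t : Tm) : ℕ := Tm.val (omega ∅) v t

/-- satisfaction in the omega-structure without sets -/
def Sa (v : ℕ → ℕ) (V : ℕ → Set ℕ) (φ : Fm) : Prop := Sat (omega ∅) v V φ

@[simp] theorem val_var (v : ℕ → ℕ) (i : ℕ) : val v (.var i) = v i := rfl
@[simp] theorem val_zero (v : ℕ → ℕ) : val v .zero = 0 := rfl
@[simp] theorem val_one (v : ℕ → ℕ) : val v .one = 1 := rfl
@[simp] theorem val_add (v : ℕ → ℕ) (s t : Tm) : val v (.add s t) = val v s + val v t := rfl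
@[simp] theorem val_mul (v : ℕ → ℕ) (s t : Tm) : val v (.mul s t) = val v s * val v t := rfl

section
variable {v v' : ℕ → ℕ} {V V' : ℕ → Set ℕ}

@[simp] theorem Sa_eq {s t : Tm} : Sa v V (.eq s t) ↔ val v s = val v t := Iff.rfl
@[simp] theorem Sa_lt {s t : Tm} : Sa v V (.lt s t) ↔ val v s < val v t := Iff.rfl
@[simp] theorem Sa_mem {t : Tm} {i : ℕ} : Sa v V (.mem t i) ↔ val v t ∈ V i := Iff.rfl
@[simp] theorem Sa_neg {φ : Fm} : Sa v V (.neg φ) ↔ ¬ Sa v V φ := Iff.rfl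
@[simp] theorem Sa_and {φ ψ : Fm} : Sa v V (.and φ ψ) ↔ (Sa v V φ ∧ Sa v V ψ) := Iff.rfl
@[simp] theorem Sa_all {i : ℕ} {φ : Fm} :
    Sa v V (.all i φ) ↔ ∀ a : ℕ, Sa (update v i a) V φ := Iff.rfl
@[simp] theorem Sa_allS {i : ℕ} {φ : Fm} : Sa v V (.allS i φ) ↔ True :=
  iff_true_intro fun A hA => absurd hA (Set.notMem_empty A)
@[simp] theorem Sa_imp {φ ψ : Fm} : Sa v V (.imp φ ψ) ↔ (Sa v V φ → Sa v V ψ) := by
  simp only [Fm.imp, Sa_neg, Sa_and]; tauto
@[simp] theorem Sa_ex {i : ℕ} {φ : Fm} :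
    Sa v V (.ex i φ) ↔ ∃ a : ℕ, Sa (update v i a) V φ := by
  simp only [Fm.ex, Sa_neg, Sa_all]; push Not; rfl

theorem Sa_congr (φ : Fm) (h : ∀ i < φ.bd, v i = v' i) (h' : ∀ i < φ.bdS, V i = V' i) :
    Sa v V φ ↔ Sa v' V' φ :=
  SOA.sat_congr (M := omega ∅) φ h h'

theorem Sa_omega (S : Set (Set ℕ)) {φ : Fm} (h : IsArith φ) : ∀ (v : ℕ → ℕ) (V : ℕ → Set ℕ),
    (Sat (omega S) v V φ ↔ Sa v V φ) := by
  induction h with
  | eq s t =>
    intro v V
    have h1 := sat_eqO S v V s t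
    rw [tm_omega S ∅ s, tm_omega S ∅ t] at h1
    exact h1
  | lt s t =>
    intro v V
    have h1 := sat_ltO S v V s t
    rw [tm_omega S ∅ s, tm_omega S ∅ t] at h1
    exact h1
  | mem t i =>
    intro v V
    have h1 := sat_memO S v V t i
    rw [tm_omega S ∅ t] at h1
    exact h1
  | neg _ ih =>
    intro v V
    exact not_congr (ih v V)
  | and _ _ ih ih' =>
    intro v V
    exact and_congr (ih v V) (ih' v V)
  | all i _ ih =>
    intro v V
    exact forall_congr' fun a => ih _ V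

end

/-- finitely supported environments -/
abbrev Env := ℕ →₀ ℕ

/-- a formula, a number environment and a renaming of the set variables -/
abbrev T := Fm × Env × Env

/-- truth of a tuple under an assignment of the global set variables -/
def tr (X : ℕ → Set ℕ) (τ : T) : Prop := Sa τ.2.1 (fun j => X (τ.2.2 j)) τ.1

/-- the atomic tuple saying that `n` lies in the `j`-th set -/
noncomputable def atm (n j : ℕ) : T := (.mem (.var 0) 0, Finsupp.single 0 n, Finsupp.single 0 j)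

@[simp] theorem tr_atm (X : ℕ → Set ℕ) (n j : ℕ) : tr X (atm n j) ↔ n ∈ X j := by
  simp [tr, atm]

/-- Tarski conditions for a set of tuples -/
structure Tarski (U : Set ℕ) (F : Set T) : Prop where
  eq : ∀ s t e r, ((Fm.eq s t, e, r) : T) ∈ F ↔ val e s = val e t
  lt : ∀ s t e r, ((Fm.lt s t, e, r) : T) ∈ F ↔ val e s < val e t
  mem : ∀ t i e r, ((Fm.mem t i, e, r) : T) ∈ F ↔ atm (val e t) (r i) ∈ F
  base : ∀ n, atm n 0 ∈ F ↔ n ∈ U
  neg : ∀ φ e r, ((Fm.neg φ, e, r) : T) ∈ F ↔ ((φ, e, r) : T) ∉ F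
  and : ∀ φ ψ e r, ((Fm.and φ ψ, e, r) : T) ∈ F ↔ ((φ, e, r) : T) ∈ F ∧ ((ψ, e, r) : T) ∈ F
  all : ∀ i φ e r, ((Fm.all i φ, e, r) : T) ∈ F ↔ ∀ k, ((φ, e.update i k, r) : T) ∈ F
  allS : ∀ i φ e r, ((Fm.allS i φ, e, r) : T) ∈ F

/-- the assignment read off from a set of tuples -/
def asgF (F : Set T) (j : ℕ) : Set ℕ := {n | atm n j ∈ F}

/-- a condition: a finite list of tuples with a common solution `X` such that `X 0 = U` -/
def Con (U : Set ℕ) (c : List T) : Prop := ∃ X : ℕ → Set ℕ, X 0 = U ∧ ∀ τ ∈ c, tr X τ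

end Pool.Agent.Helper317.Beta
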