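import Pool.Agent.Helper317.SOA

/-!
Omega-models of second-order arithmetic, arithmetical and `Π¹₁` comprehension, beta-models; coded
abelian groups and the two test statements of Kaplansky.
-/

namespace Pool.Agent.Helper317.Kap

open Pool.Agent.Helper317.SOA Function

/-- The omega-model whose second-order part is `S`. -/
def omega (S : Set (Set ℕ)) : Model where
  Num := ℕ
  zero := 0
  one := 1
  add := fun a b => a + b
  mul := fun a b => a * b
  lt := fun a b => a < b
  sets := S

/-- Arithmetical formulas: no set quantifiers. -/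
inductive IsArith : Fm → Prop
  | eq (s t : Tm) : IsArith (.eq s t)
  | lt (s t : Tm) : IsArith (.lt s t)
  | mem (t : Tm) (i : ℕ) : IsArith (.mem t i)
  | neg {φ : Fm} : IsArith φ → IsArith (.neg φ)
  | and {φ ψ : Fm} : IsArith φ → IsArith ψ → IsArith (.and φ ψ)
  | all (i : ℕ) {φ : Fm} : IsArith φ → IsArith (.all i φ)

/-- Arithmetical comprehension, with number and set parameters. -/
def ACA (M : Model) : Prop :=
  ∀ φ, IsArith φ → ∀ (i : ℕ) (v : ℕ → M.Num) (V : ℕ → Set M.Num), M.SetAsg V →
    {a | Sat M (Function.update v i a) V φ} ∈ M.sets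

/-- `Π¹₁` comprehension, with number and set parameters: the formula is a universal set quantifier
in front of an arithmetical formula. -/
def Pi11CA (M : Model) : Prop :=
  ∀ φ, IsArith φ → ∀ (j i : ℕ) (v : ℕ → M.Num) (V : ℕ → Set M.Num), M.SetAsg V →
    {a | Sat M (Function.update v i a) V (.allS j φ)} ∈ M.sets

/-- The code of an ordered pair of natural numbers: the square of `a + b`, plus `a`. -/
def pr (a b : ℕ) : ℕ := (a + b) * (a + b) + a

theorem pr_inj {a b c d : ℕ} (h : pr a b = pr c d) : a = c ∧ b = d := by
  unfold pr at h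
  rcases lt_trichotomy (a + b) (c + d) with h1 | h1 | h1
  · exfalso; nlinarith
  · rw [h1] at h; omega
  · exfalso; nlinarith

/-- A coded abelian group: a set of natural numbers with an abelian group structure on it. -/
structure CGrp where
  dom : Set ℕ
  grp : AddCommGroup dom

instance (G : CGrp) : AddCommGroup G.dom := G.grp

/-- The graph of the addition of a coded group. -/
def CGrp.addG (G : CGrp) : Set ℕ := {c | ∃ a b : G.dom, c = pr (pr a b) (a + b : G.dom)}

/-- The graph of the inverse of a coded group. -/
def CGrp.negG (G : CGrp) : Set ℕ := {c | ∃ a : G.dom, c = pr a (-a : G.dom)}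

/-- The coded group exists in the omega-model with second-order part `S`. -/
def CGrp.In (G : CGrp) (S : Set (Set ℕ)) : Prop := G.dom ∈ S ∧ G.addG ∈ S ∧ G.negG ∈ S

/-- Every element has finite order. -/
def CGrp.Torsion (G : CGrp) : Prop := ∀ x : G.dom, ∃ n : ℕ, 0 < n ∧ n • x = 0

/-- The set of codes of pairs with first entry in `A` and second entry in `B`. -/
def prodSet (A B : Set ℕ) : Set ℕ := {c | ∃ (a : A) (b : B), c = pr a b}

/-- The bijection of `A × B` with the set of codes of its elements. -/
noncomputable def prodEquiv (A B : Set ℕ) : A × B ≃ prodSet A B :=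
  Equiv.ofBijective (fun x => ⟨pr x.1 x.2, x.1, x.2, rfl⟩) (by
    constructor
    · rintro ⟨⟨a, ha⟩, ⟨b, hb⟩⟩ ⟨⟨a', ha'⟩, ⟨b', hb'⟩⟩ h
      have := pr_inj (Subtype.ext_iff.1 h)
      simp only [Prod.mk.injEq, Subtype.mk.injEq]
      exact this
    · rintro ⟨c, a, b, rfl⟩
      exact ⟨(a, b), rfl⟩)

/-- The direct sum of two coded groups: its elements are the codes of pairs, and the operations
are componentwise. -/
noncomputable def CGrp.sum (G H : CGrp) : CGrp where
  dom := prodSet G.dom H.dom
  grp := (prodEquiv G.dom H.dom).symm.addCommGroup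

/-- `G` and `H` are isomorphic in the omega-model with second-order part `S`: the graph of some
isomorphism is in `S`. -/
def Isom (S : Set (Set ℕ)) (G H : CGrp) : Prop :=
  ∃ f : G.dom ≃+ H.dom, {c : ℕ | ∃ a : G.dom, c = pr a (f a)} ∈ S

/-- `G` is a direct summand of `H` in the omega-model with second-order part `S`. -/
def Summand (S : Set (Set ℕ)) (G H : CGrp) : Prop := ∃ K : CGrp, K.In S ∧ Isom S H (G.sum K)

/-- Statement (a) in the omega-model with second-order part `S`. -/
def StmtA (S : Set (Set ℕ)) : Prop :=
  ∀ G H : CGrp, G.In S → H.In S → G.Torsion → H.Torsion →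
    Isom S (G.sum G) (H.sum H) → Isom S G H

/-- Statement (b) in the omega-model with second-order part `S`. -/
def StmtB (S : Set (Set ℕ)) : Prop :=
  ∀ G H : CGrp, G.In S → H.In S → G.Torsion → H.Torsion →
    Summand S G H → Summand S H G → Isom S G H

/-- The omega-model with second-order part `S` is a beta-model: whenever some set of natural
numbers satisfies an arithmetical formula with parameters in the model, some set in the model
does. -/
def BetaModel (S : Set (Set ℕ)) : Prop :=
  ∀ φ, IsArith φ → ∀ (i : ℕ) (v : ℕ → ℕ) (V : ℕ → Set ℕ), (∀ j, V j ∈ S) →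
    (∃ Y : Set ℕ, Sat (omega S) v (Function.update V i Y) φ) →
      ∃ Y ∈ S, Sat (omega S) v (Function.update V i Y) φ

end Pool.Agent.Helper317.Kap
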