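import Pool.Agent.Helper317.Beta.Base
import Pool.Agent.Helper317.Beta.Stmt

/-!
Nodes, the child relation, the table, certificates, and the diagonal set.
-/

namespace Pool.Agent.Helper317.Beta

open Pool.Agent.Helper317.SOA Pool.Agent.Helper317.Kap Function

/-- nodes: tuples, indices, and the statements `n ∈ U`, `n ∉ U` -/
inductive Nd : Type
  | t : T → Nd
  | j : ℕ → Nd
  | u : ℕ → Nd
  | nu : ℕ → Nd

/-- the always true tuple -/
def top : T := (.eq .zero .zero, 0, 0)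

/-- the children of a node: the node is true iff all its children are false -/
def ch (dec : ℕ → List T × ℕ) : Nd → Set Nd
  | .t (.eq s t, e, _) => {b | val e s ≠ val e t ∧ b = .t top}
  | .t (.lt s t, e, _) => {b | ¬ val e s < val e t ∧ b = .t top}
  | .t (.mem t i, e, r) =>
    {if r i = 0 then .nu (val e t) else .t (.neg (atm (val e t) (r i)).1, (atm (val e t) (r i)).2)}
  | .t (.neg φ, e, r) => {.t (φ, e, r)}
  | .t (.and φ ψ, e, r) => {.t (.neg φ, e, r), .t (.neg ψ, e, r)}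
  | .t (.all i φ, e, r) => {b | ∃ k, b = .t (.neg φ, e.update i k, r)}
  | .t (.allS _ _, _, _) => ∅
  | .j m => {b | ∃ τ ∈ atm m (dec m).2 :: (dec m).1, b = .t (.neg τ.1, τ.2)}
  | .u n => {.nu n}
  | .nu n => {.u n}

/-- codes of nodes -/
def cd (enc : T → ℕ) : Nd → ℕ
  | .t τ => 4 * enc τ
  | .nu n => 4 * n + 1
  | .u n => 4 * n + 2
  | .j m => 4 * m + 3

/-- the table -/
def tab (enc : T → ℕ) (dec : ℕ → List T × ℕ) : Set ℕ :=
  {c | ∃ a b, b ∈ ch dec a ∧ c = pr (cd enc a) (cd enc b)}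

/-- certificates -/
def Cert (U Y : Set ℕ) : Prop :=
  (∀ a, a ∈ Y ↔ ∀ b, pr a b ∈ U → b ∉ Y) ∧ ∀ n, (4 * n + 2 ∈ Y ↔ n ∈ U)

/-- the diagonal set -/
def Wd (U : Set ℕ) (dec : ℕ → List T × ℕ) : Set ℕ :=
  {m | ¬ ∃ X : ℕ → Set ℕ, X 0 = U ∧ (∀ τ ∈ (dec m).1, tr X τ) ∧ m ∈ X (dec m).2}

/-- the term for the pairing function -/
def prT (s t : Tm) : Tm := .add (.mul (.add s t) (.add s t)) s

@[simp] theorem val_prT (v : ℕ → ℕ) (s t : Tm) : val v (prT s t) = pr (val v s) (val v t) := rfl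

/-- equivalence -/
def iffF (φ ψ : Fm) : Fm := .and (.imp φ ψ) (.imp ψ φ)

@[simp] theorem Sa_iffF {v : ℕ → ℕ} {V : ℕ → Set ℕ} {φ ψ : Fm} :
    Sa v V (iffF φ ψ) ↔ (Sa v V φ ↔ Sa v V ψ) := by
  simp only [iffF, Sa_and, Sa_imp]; tauto

/-- four times a term -/
def fourT (t : Tm) : Tm := .add (.add t t) (.add t t)

/-- The formula saying that set 1 is a certificate for set 0 and contains 4m+3, `m` the number variable 0. -/
def certF : Fm :=
  .and (.and
    (.all 1 (iffF (.mem (.var 1) 1)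
      (.all 2 (.imp (.mem (prT (.var 1) (.var 2)) 0) (.neg (.mem (.var 2) 1))))))
    (.all 1 (iffF (.mem (.add (fourT (.var 1)) (.add .one .one)) 1) (.mem (.var 1) 0))))
    (.mem (.add (fourT (.var 0)) (.add .one (.add .one .one))) 1)

/-- the statement expressed by the formula `isoF` -/
def IsoP (A B P Q F : Set ℕ) : Prop :=
  (∀ c, c ∈ F → ∃ a b, a ∈ A ∧ b ∈ B ∧ c = pr a b) ∧
  (∀ a, a ∈ A → ∃ b, pr a b ∈ F) ∧
  (∀ b, b ∈ B → ∃ a, pr a b ∈ F) ∧
  (∀ a b c, pr a b ∈ F → pr a c ∈ F → b = c) ∧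
  (∀ a b c, pr a c ∈ F → pr b c ∈ F → a = b) ∧
  (∀ a b c d x y, pr a b ∈ F → pr c d ∈ F → pr (pr a c) x ∈ P → pr (pr b d) y ∈ Q →
    pr x y ∈ F)

/-- The formula saying that set 4 is the graph of an isomorphism, where set 0 and set 1 are the domains and
set 2 and set 3 the graphs of the additions. -/
def isoF : Fm :=
  .and (.all 0 (.imp (.mem (.var 0) 4) (.ex 1 (.ex 2 (.and (.mem (.var 1) 0)
    (.and (.mem (.var 2) 1) (.eq (.var 0) (prT (.var 1) (.var 2)))))))))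
  (.and (.all 0 (.imp (.mem (.var 0) 0) (.ex 1 (.mem (prT (.var 0) (.var 1)) 4))))
  (.and (.all 0 (.imp (.mem (.var 0) 1) (.ex 1 (.mem (prT (.var 1) (.var 0)) 4))))
  (.and (.all 0 (.all 1 (.all 2 (.imp (.mem (prT (.var 0) (.var 1)) 4)
    (.imp (.mem (prT (.var 0) (.var 2)) 4) (.eq (.var 1) (.var 2)))))))
  (.and (.all 0 (.all 1 (.all 2 (.imp (.mem (prT (.var 0) (.var 2)) 4)
    (.imp (.mem (prT (.var 1) (.var 2)) 4) (.eq (.var 0) (.var 1)))))))
    (.all 0 (.all 1 (.all 2 (.all 3 (.all 4 (.all 5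
      (.imp (.mem (prT (.var 0) (.var 1)) 4) (.imp (.mem (prT (.var 2) (.var 3)) 4)
      (.imp (.mem (prT (prT (.var 0) (.var 2)) (.var 4)) 2)
      (.imp (.mem (prT (prT (.var 1) (.var 3)) (.var 5)) 3)
        (.mem (prT (.var 4) (.var 5)) 4)))))))))))))))

end Pool.Agent.Helper317.Beta
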