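import Pool.Agent.Helper317.Beta.Forms

/-! The diagonal set, closure under witnesses for all parameters, comprehension. -/

namespace Pool.Agent.Helper317.Beta

open Pool.Agent.Helper317.SOA Pool.Agent.Helper317.Kap Function

theorem Wd_diag {U : Set ℕ} {dec : ℕ → List T × ℕ} (hdec : Surjective dec) :
    ∀ c i, Con U c → ∃ (X : ℕ → Set ℕ) (n : ℕ), X 0 = U ∧ (∀ τ ∈ c, tr X τ) ∧
      ¬ (n ∈ X i ↔ n ∈ Wd U dec) := by
  intro c i hc
  by_contra hcon
  push Not at hcon
  obtain ⟨m, hm⟩ := hdec (c, i)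
  obtain ⟨X, hX0, hX⟩ := hc
  have h1 := hcon X m hX0 hX
  have hW : m ∈ Wd U dec ↔ ¬ ∃ X : ℕ → Set ℕ, X 0 = U ∧ (∀ τ ∈ c, tr X τ) ∧ m ∈ X i := by
    unfold Wd
    rw [Set.mem_ofPred_eq, hm]
  by_cases hmW : m ∈ Wd U dec
  · exact (hW.1 hmW) ⟨X, hX0, hX, h1.2 hmW⟩
  · have h2 := hmW
    rw [hW, not_not] at h2
    obtain ⟨Y, hY0, hY, hmY⟩ := h2
    exact hmW ((hcon Y m hY0 hY).1 hmY)

/-- every environment agrees below a bound with a finitely supported one -/
theorem exists_env (v : ℕ → ℕ) (N : ℕ) : ∃ e : Env, ∀ i < N, e i = v i := by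
  classical
  refine ⟨Finsupp.onFinset (Finset.range N) (fun i => if i < N then v i else 0) ?_, ?_⟩
  · intro i hi
    by_contra hcon
    rw [Finset.mem_range] at hcon
    exact hi (if_neg hcon)
  · intro i hi
    simp [hi]

theorem betaModel_range {G : ℕ → Set ℕ}
    (hG : ∀ (φ : Fm) (e r : Env) (i : ℕ), (∃ Y, Sa e (update (fun j => G (r j)) i Y) φ) →
        ∃ m, Sa e (update (fun j => G (r j)) i (G m)) φ) :
    BetaModel (Set.range G) := by
  intro φ hφ i v V hV hY
  choose g hg using hV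
  obtain ⟨e, he⟩ := exists_env v φ.bd
  obtain ⟨r, hr⟩ := exists_env g φ.bdS
  have key : ∀ Y : Set ℕ, Sat (omega (Set.range G)) v (update V i Y) φ ↔
      Sa e (update (fun j => G (r j)) i Y) φ := by
    intro Y
    rw [Sa_omega _ hφ]
    refine Sa_congr φ (fun j hj => (he j hj).symm) (fun j hj => ?_)
    by_cases hji : j = i
    · subst hji; simp
    · rw [update_of_ne hji, update_of_ne hji, hr j hj, hg j]
  obtain ⟨Y, hY⟩ := hY
  obtain ⟨m, hm⟩ := hG φ e r i ⟨Y, (key Y).1 hY⟩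
  exact ⟨G m, ⟨m, rfl⟩, (key _).2 hm⟩

theorem isArith_imp {φ ψ : Fm} (h : IsArith φ) (h' : IsArith ψ) : IsArith (.imp φ ψ) :=
  .neg (.and h (.neg h'))

theorem isArith_iffF {φ ψ : Fm} (h : IsArith φ) (h' : IsArith ψ) : IsArith (iffF φ ψ) :=
  .and (isArith_imp h h') (isArith_imp h' h)

theorem isArith_delta0 {φ : Fm} (h : IsDelta0 φ) : IsArith φ := by
  induction h with
  | eq s t => exact .eq s t
  | lt s t => exact .lt s t
  | mem t i => exact .mem t i
  | neg _ ih => exact .neg ih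
  | and _ _ ih ih' => exact .and ih ih'
  | ball i t _ _ ih => exact .all i (isArith_imp (.lt _ _) ih)

/-- comprehension for all arithmetical formulas in a beta-model -/
theorem aca_of_beta {S : Set (Set ℕ)} (hS : BetaModel S) : ACA (omega S) := by
  intro φ hφ i
  show ∀ (v : ℕ → ℕ) (V : ℕ → Set ℕ), _
  intro v V hV
  set j := φ.bdS with hj
  have h1 : ∀ Y : Set ℕ, Sat (omega S) v (update V j Y) (.all i (iffF (.mem (.var i) j) φ)) ↔
      Y = {a | Sat (omega S) (update v i a) V φ} := by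
    intro Y
    have h2 : ∀ a : ℕ, Sa (update v i a) (update V j Y) φ ↔ Sa (update v i a) V φ := by
      intro a
      refine Sa_congr φ (fun _ _ => rfl) (fun k hk => ?_)
      rw [update_of_ne (by omega)]
    rw [Sa_omega _ (.all i (isArith_iffF (.mem _ _) hφ))]
    simp only [Sa_all, Sa_iffF, Sa_mem, val_var, update_self]
    constructor
    · intro h
      ext a
      rw [h a]
      exact (h2 a).trans (Sa_omega S hφ _ _).symm
    · intro h a
      refine Iff.trans ?_ (h2 a).symm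
      rw [h]
      exact Sa_omega S hφ _ _
  obtain ⟨Y, hY, hY'⟩ := hS _ (.all i (isArith_iffF (.mem (.var i) j) hφ)) j v V hV
    ⟨_, (h1 _).2 rfl⟩
  rw [h1] at hY'
  rw [← hY']
  exact hY

theorem rca_of_aca {S : Set (Set ℕ)} (h : ACA (omega S)) : RCA0 (omega S) := by
  refine ⟨?_, ?_, ?_⟩
  · refine ⟨?_, ?_, ?_, ?_, ?_, ?_, ?_, ?_⟩
    · intro n; exact Nat.succ_ne_zero n
    · intro m n hmn; exact Nat.succ_injective hmn
    · intro m; rfl
    · intro m n; rfl
    · intro m; rfl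
    · intro m n; rfl
    · intro m; exact Nat.not_lt_zero m
    · intro m n; exact Nat.lt_succ_iff_lt_or_eq
  · intro φ _ i v V _ h0 hs a
    exact Nat.rec (motive := fun a : ℕ => Sat (omega S) (update v i a) V φ) h0
      (fun a ih => hs a ih) a
  · intro φ ψ hφ hψ i v V hV hiff
    obtain ⟨j, φ', rfl, hφ'⟩ := hφ
    exact h _ (.neg (.all j (.neg (isArith_delta0 hφ')))) i v V hV

end Pool.Agent.Helper317.Beta
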