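import Pool.Agent.Helper317.Beta.K2

/-!
Closure under witnesses.
-/

namespace Pool.Agent.Helper317.Beta

open Pool.Agent.Helper317.SOA Pool.Agent.Helper317.Kap Function

theorem beta_exists_upd (X : ℕ → Set ℕ) (r : Env) (i m : ℕ) :
    (fun j => X ((r.update i m) j)) = update (fun j => X (r j)) i (X m) := by
  funext j
  by_cases hj : j = i
  · subst hj
    rw [update_self, Finsupp.update_apply, if_pos rfl]
  · rw [update_of_ne hj, Finsupp.update_apply, if_neg hj]

theorem beta_exists {U W : Set ℕ}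
    (hW : ∀ c i, Con U c → ∃ (X : ℕ → Set ℕ) (n : ℕ), X 0 = U ∧ (∀ τ ∈ c, tr X τ) ∧
      ¬ (n ∈ X i ↔ n ∈ W)) :
    ∃ G : ℕ → Set ℕ, G 0 = U ∧ (∀ i, G i ≠ W) ∧
      ∀ (φ : Fm) (e r : Env) (i : ℕ), (∃ Y, Sa e (update (fun j => G (r j)) i Y) φ) →
        ∃ m, Sa e (update (fun j => G (r j)) i (G m)) φ := by
  obtain ⟨R, hRd⟩ : ∃ R : (Fm × Env × Env × ℕ) ⊕ ℕ → List T → Prop, R = fun q c =>
    match q with
    | .inl (φ, e, r, i) => (∃ m, ∀ X : ℕ → Set ℕ, X 0 = U → (∀ τ ∈ c, tr X τ) →
          Sa e (update (fun j => X (r j)) i (X m)) φ) ∨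
        (∀ X : ℕ → Set ℕ, X 0 = U → (∀ τ ∈ c, tr X τ) → ∀ Y,
          ¬ Sa e (update (fun j => X (r j)) i Y) φ)
    | .inr i => ∀ X : ℕ → Set ℕ, X 0 = U → (∀ τ ∈ c, tr X τ) → X i ≠ W := ⟨_, rfl⟩
  have hR1 : ∀ φ e r i c, R (.inl (φ, e, r, i)) c ↔
      ((∃ m, ∀ X : ℕ → Set ℕ, X 0 = U → (∀ τ ∈ c, tr X τ) →
          Sa e (update (fun j => X (r j)) i (X m)) φ) ∨
        (∀ X : ℕ → Set ℕ, X 0 = U → (∀ τ ∈ c, tr X τ) → ∀ Y,
          ¬ Sa e (update (fun j => X (r j)) i Y) φ)) := by
    intro φ e r i c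
    rw [hRd]
  have hR2 : ∀ i c, R (.inr i) c ↔ ∀ X : ℕ → Set ℕ, X 0 = U → (∀ τ ∈ c, tr X τ) → X i ≠ W := by
    intro i c
    rw [hRd]
  obtain ⟨G, hG0, hG⟩ := generic (U := U) R (by
    rintro (⟨φ, e, r, i⟩ | i) c hc
    · by_cases hex : ∃ X : ℕ → Set ℕ, X 0 = U ∧ (∀ τ ∈ c, tr X τ) ∧
          ∃ Y, Sa e (update (fun j => X (r j)) i Y) φ
      · obtain ⟨X, hX0, hXc, Y, hY⟩ := hex
        have hfin : ({0} ∪ Set.range r ∪ ⋃ τ ∈ {τ | τ ∈ c}, Set.range τ.2.2 : Set ℕ).Finite := by
          refine ((Set.finite_singleton 0).union (Finsupp.finite_range r)).union ?_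
          exact Set.Finite.biUnion (List.finite_toSet c) fun τ _ => Finsupp.finite_range _
        obtain ⟨m, hm⟩ := hfin.infinite_compl.nonempty
        have hm0 : m ≠ 0 := fun h => hm (Or.inl (Or.inl h))
        have hmr : ∀ j, r j ≠ m := fun j h => hm (Or.inl (Or.inr ⟨j, h⟩))
        have hmc : ∀ τ ∈ c, ∀ j, τ.2.2 j ≠ m := fun τ hτ j h =>
          hm (Or.inr (Set.mem_biUnion hτ ⟨j, h⟩))
        refine ⟨[(φ, e, r.update i m)], ⟨update X m Y, ?_, ?_⟩, ?_⟩
        · rw [update_of_ne hm0.symm, hX0]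
        · intro τ hτ
          rw [List.singleton_append, List.mem_cons] at hτ
          rcases hτ with rfl | hτ
          · show Sa e (fun j => update X m Y ((r.update i m) j)) φ
            rw [beta_exists_upd, update_self]
            have h1 : (fun j => update X m Y (r j)) = fun j => X (r j) := by
              funext j
              rw [update_of_ne (hmr j)]
            rw [h1]
            exact hY
          · have h1 : (fun j => update X m Y (τ.2.2 j)) = fun j => X (τ.2.2 j) := by
              funext j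
              rw [update_of_ne (hmc τ hτ j)]
            show Sa τ.2.1 (fun j => update X m Y (τ.2.2 j)) τ.1
            rw [h1]
            exact hXc τ hτ
        · rw [hR1]
          left
          refine ⟨m, fun X' _ hX' => ?_⟩
          have h1 : tr X' (φ, e, r.update i m) := hX' _ (by simp)
          have h2 : Sa e (fun j => X' ((r.update i m) j)) φ := h1
          rw [beta_exists_upd] at h2
          exact h2
      · refine ⟨[], by rw [List.nil_append]; exact hc, ?_⟩
        rw [hR1]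
        right
        intro X hX0 hXc Y hY
        exact hex ⟨X, hX0, hXc, Y, hY⟩
    · obtain ⟨X, n, hX0, hXc, hn⟩ := hW c i hc
      by_cases hni : n ∈ X i
      · have hnW : n ∉ W := fun h => hn ⟨fun _ => h, fun _ => hni⟩
        refine ⟨[atm n i], ⟨X, hX0, ?_⟩, ?_⟩
        · intro τ hτ
          rw [List.singleton_append, List.mem_cons] at hτ
          rcases hτ with rfl | hτ
          · rw [tr_atm]
            exact hni
          · exact hXc τ hτ
        · rw [hR2]
          intro X' _ hX' hW'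
          have h1 : tr X' (atm n i) := hX' _ (by simp)
          rw [tr_atm, hW'] at h1
          exact hnW h1
      · have hnW : n ∈ W := by
          by_contra h
          exact hn ⟨fun h' => absurd h' hni, fun h' => absurd h' h⟩
        have htr : ∀ X' : ℕ → Set ℕ, tr X' (.neg (atm n i).1, (atm n i).2) ↔ n ∉ X' i := by
          intro X'
          rw [← tr_atm]
          exact Iff.rfl
        refine ⟨[(.neg (atm n i).1, (atm n i).2)], ⟨X, hX0, ?_⟩, ?_⟩
        · intro τ hτ
          rw [List.singleton_append, List.mem_cons] at hτ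
          rcases hτ with rfl | hτ
          · rw [htr]
            exact hni
          · exact hXc τ hτ
        · rw [hR2]
          intro X' _ hX' hW'
          have h1 : tr X' (.neg (atm n i).1, (atm n i).2) := hX' _ (by simp)
          rw [htr, hW'] at h1
          exact h1 hnW)
  refine ⟨G, hG0, fun i => ?_, fun φ e r i hY => ?_⟩
  · obtain ⟨c, h1, h2⟩ := hG (.inr i)
    rw [hR2] at h1
    exact h1 G hG0 h2
  · obtain ⟨c, h1, h2⟩ := hG (.inl (φ, e, r, i))
    rw [hR1] at h1
    rcases h1 with ⟨m, h1⟩ | h1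
    · exact ⟨m, h1 G hG0 h2⟩
    · obtain ⟨Y, hY⟩ := hY
      exact absurd hY (h1 G hG0 h2 Y)

end Pool.Agent.Helper317.Beta
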