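import Pool.Agent.Helper317.Beta.Base

/-!
Tarski conditions give truth.
-/

namespace Pool.Agent.Helper317.Beta

open Pool.Agent.Helper317.SOA Pool.Agent.Helper317.Kap Function

theorem Tarski.tr_iff_aux {U : Set ℕ} {F : Set T} (h : Tarski U F) (φ : Fm) :
    ∀ e r : Env, ((φ, e, r) : T) ∈ F ↔ Sa e (fun j => asgF F (r j)) φ := by
  induction φ with
  | eq s t => intro e r; rw [h.eq, Sa_eq]
  | lt s t => intro e r; rw [h.lt, Sa_lt]
  | mem t i => intro e r; rw [h.mem, Sa_mem]; rfl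
  | neg φ ih => intro e r; rw [h.neg, Sa_neg, ih]
  | and φ ψ ih1 ih2 => intro e r; rw [h.and, Sa_and, ih1, ih2]
  | all i φ ih =>
    intro e r
    rw [h.all, Sa_all]
    refine forall_congr' fun k => ?_
    rw [ih, Finsupp.coe_update]
  | allS i φ ih =>
    intro e r
    rw [Sa_allS]
    exact iff_true_intro (h.allS i φ e r)

theorem Tarski.tr_iff {U : Set ℕ} {F : Set T} (h : Tarski U F) (τ : T) :
    τ ∈ F ↔ tr (asgF F) τ := by
  obtain ⟨φ, e, r⟩ := τ
  exact h.tr_iff_aux φ e r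

theorem Tarski.zero {U : Set ℕ} {F : Set T} (h : Tarski U F) : asgF F 0 = U := by
  ext n
  exact h.base n

end Pool.Agent.Helper317.Beta
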