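import Pool.Agent.Helper317.Beta.Defs2
import Pool.Agent.Helper317.Beta.K1

/-!
Certificates.
-/

namespace Pool.Agent.Helper317.Beta

open Pool.Agent.Helper317.SOA Pool.Agent.Helper317.Kap Function

theorem cd_inj_8966 {enc : T → ℕ} (henc : Injective enc) : Injective (cd enc) := by
  intro a b h
  cases a <;> cases b <;> simp only [cd] at h
  · rename_i τ τ'
    have : enc τ = enc τ' := by omega
    rw [henc this]
  all_goals first
    | (exfalso; omega)
    | (congr 1; omega)

theorem mem_tab_8966 {enc : T → ℕ} (henc : Injective enc) {dec : ℕ → List T × ℕ} (a b : Nd) :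
    pr (cd enc a) (cd enc b) ∈ tab enc dec ↔ b ∈ ch dec a := by
  constructor
  · rintro ⟨a', b', h, he⟩
    obtain ⟨h1, h2⟩ := pr_inj he
    rw [cd_inj_8966 henc h1, cd_inj_8966 henc h2]
    exact h
  · intro h
    exact ⟨a, b, h, rfl⟩

theorem tab_elim_8966 {enc : T → ℕ} {dec : ℕ → List T × ℕ} {x y : ℕ}
    (h : pr x y ∈ tab enc dec) : ∃ a b, b ∈ ch dec a ∧ x = cd enc a ∧ y = cd enc b := by
  obtain ⟨a, b, h, he⟩ := h
  obtain ⟨h1, h2⟩ := pr_inj he
  exact ⟨a, b, h, h1, h2⟩

theorem cert_node_8966 {enc : T → ℕ} (henc : Injective enc) {dec : ℕ → List T × ℕ} {Y : Set ℕ}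
    (hY : Cert (tab enc dec) Y) (x : Nd) :
    cd enc x ∈ Y ↔ ∀ b ∈ ch dec x, cd enc b ∉ Y := by
  rw [hY.1]
  constructor
  · intro h b hb
    exact h _ ((mem_tab_8966 henc x b).2 hb)
  · intro h y hy
    obtain ⟨a, b, hab, h1, h2⟩ := tab_elim_8966 hy
    rw [cd_inj_8966 henc h1] at h
    rw [h2]
    exact h b hab

/-- truth of nodes -/
def trN_8966 (X : ℕ → Set ℕ) (dec : ℕ → List T × ℕ) : Nd → Prop
  | .t τ => tr X τ
  | .u n => n ∈ X 0
  | .nu n => n ∉ X 0
  | .j m => ∀ τ ∈ atm m (dec m).2 :: (dec m).1, tr X τ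

theorem tr_neg_8966 (X : ℕ → Set ℕ) (τ : T) : tr X (.neg τ.1, τ.2) ↔ ¬ tr X τ := Iff.rfl

theorem trN_iff_8966 (X : ℕ → Set ℕ) (dec : ℕ → List T × ℕ) (x : Nd) :
    trN_8966 X dec x ↔ ∀ b ∈ ch dec x, ¬ trN_8966 X dec b := by
  have htop : trN_8966 X dec (.t top) := by
    show val _ _ = val _ _
    rfl
  cases x with
  | t τ =>
    obtain ⟨φ, e, r⟩ := τ
    cases φ with
    | eq s t =>
      constructor
      · intro h b hb
        obtain ⟨h1, rfl⟩ := hb
        exact absurd h h1
      · intro h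
        by_contra h1
        exact h _ ⟨h1, rfl⟩ htop
    | lt s t =>
      constructor
      · intro h b hb
        obtain ⟨h1, rfl⟩ := hb
        exact absurd h h1
      · intro h
        by_contra h1
        exact h _ ⟨h1, rfl⟩ htop
    | mem t i =>
      have e1 : trN_8966 X dec (.t (.mem t i, e, r)) ↔ val e t ∈ X (r i) := Iff.rfl
      rw [e1]
      show _ ↔ ∀ b ∈ ({if r i = 0 then .nu (val e t) else
        .t (.neg (atm (val e t) (r i)).1, (atm (val e t) (r i)).2)} : Set Nd), ¬ trN_8966 X dec b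
      simp only [Set.mem_singleton_iff, forall_eq]
      split_ifs with h
      · rw [h]
        show _ ↔ ¬ ¬ (val e t ∈ X 0)
        rw [not_not]
      · show _ ↔ ¬ tr X (.neg (atm (val e t) (r i)).1, (atm (val e t) (r i)).2)
        rw [tr_neg_8966, tr_atm, not_not]
    | neg φ =>
      show ¬ tr X (φ, e, r) ↔ ∀ b ∈ ({.t (φ, e, r)} : Set Nd), ¬ trN_8966 X dec b
      simp only [Set.mem_singleton_iff, forall_eq]
      exact Iff.rfl
    | and φ ψ =>
      show (tr X (φ, e, r) ∧ tr X (ψ, e, r)) ↔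
        ∀ b ∈ ({.t (.neg φ, e, r), .t (.neg ψ, e, r)} : Set Nd), ¬ trN_8966 X dec b
      simp only [Set.mem_insert_iff, Set.mem_singleton_iff, forall_eq_or_imp, forall_eq]
      show _ ↔ (¬ ¬ tr X (φ, e, r)) ∧ (¬ ¬ tr X (ψ, e, r))
      rw [not_not, not_not]
    | all i φ =>
      constructor
      · rintro h b ⟨k, rfl⟩ h1
        apply h1
        have h2 := h k
        show Sa (e.update i k : Env) (fun j => X (r j)) φ
        rw [Finsupp.coe_update]
        exact h2
      · intro h
        have h3 : ∀ k : ℕ, Sa (Function.update e i k) (fun j => X (r j)) φ := by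
          intro k
          have h1 := h _ ⟨k, rfl⟩
          have h2 : ¬ ¬ Sa (e.update i k : Env) (fun j => X (r j)) φ := h1
          rw [Finsupp.coe_update, not_not] at h2
          exact h2
        exact h3
    | allS i φ =>
      constructor
      · intro _ b hb
        exact absurd hb (Set.notMem_empty b)
      · intro _
        exact Sa_allS.2 trivial
  | j m =>
    constructor
    · rintro h b ⟨τ, hτ, rfl⟩ h1
      exact h1 (h τ hτ)
    · intro h τ hτ
      have h1 := h _ ⟨τ, hτ, rfl⟩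
      exact not_not.1 h1
  | u n =>
    show n ∈ X 0 ↔ ∀ b ∈ ({.nu n} : Set Nd), ¬ trN_8966 X dec b
    simp only [Set.mem_singleton_iff, forall_eq]
    show _ ↔ ¬ ¬ (n ∈ X 0)
    rw [not_not]
  | nu n =>
    show n ∉ X 0 ↔ ∀ b ∈ ({.u n} : Set Nd), ¬ trN_8966 X dec b
    simp only [Set.mem_singleton_iff, forall_eq]
    exact Iff.rfl

theorem tarski_8966 {enc : T → ℕ} (henc : Injective enc) {dec : ℕ → List T × ℕ} {Y : Set ℕ}
    (hY : Cert (tab enc dec) Y) : Tarski (tab enc dec) {τ | cd enc (.t τ) ∈ Y} := by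
  have hnode := cert_node_8966 henc hY
  have hF : ∀ τ, (τ ∈ {τ | cd enc (.t τ) ∈ Y}) ↔ cd enc (.t τ) ∈ Y := fun τ => Iff.rfl
  have htop : cd enc (.t top) ∈ Y := by
    rw [hnode]
    rintro b ⟨h, -⟩
    exact absurd rfl h
  have hneg : ∀ φ e r, cd enc (.t (Fm.neg φ, e, r)) ∈ Y ↔ cd enc (.t (φ, e, r)) ∉ Y := by
    intro φ e r
    rw [hnode]
    show (∀ b ∈ ({.t (φ, e, r)} : Set Nd), _) ↔ _
    simp only [Set.mem_singleton_iff, forall_eq]
  have hu : ∀ n, cd enc (.u n) ∈ Y ↔ n ∈ tab enc dec := fun n => hY.2 n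
  have hnu : ∀ n, cd enc (.nu n) ∈ Y ↔ n ∉ tab enc dec := by
    intro n
    rw [hnode]
    show (∀ b ∈ ({.u n} : Set Nd), _) ↔ _
    simp only [Set.mem_singleton_iff, forall_eq]
    rw [hu]
  have hmem : ∀ t i e r, cd enc (.t (Fm.mem t i, e, r)) ∈ Y ↔
      if r i = 0 then val e t ∈ tab enc dec else cd enc (.t (atm (val e t) (r i))) ∈ Y := by
    intro t i e r
    rw [hnode]
    show (∀ b ∈ ({if r i = 0 then .nu (val e t) else
        .t (.neg (atm (val e t) (r i)).1, (atm (val e t) (r i)).2)} : Set Nd), _) ↔ _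
    simp only [Set.mem_singleton_iff, forall_eq]
    split_ifs with h
    · rw [hnu, not_not]
    · have := hneg (atm (val e t) (r i)).1 (atm (val e t) (r i)).2.1 (atm (val e t) (r i)).2.2
      have h2 : cd enc (.t (.neg (atm (val e t) (r i)).1, (atm (val e t) (r i)).2)) ∈ Y ↔
        cd enc (.t (atm (val e t) (r i))) ∉ Y := this
      rw [h2, not_not]
  have hbase : ∀ n, cd enc (.t (atm n 0)) ∈ Y ↔ n ∈ tab enc dec := by
    intro n
    have h1 := hmem (.var 0) 0 (Finsupp.single 0 n) (Finsupp.single 0 0)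
    have h2 : val (Finsupp.single 0 n : Env) (.var 0) = n := by simp
    rw [h2] at h1
    simp only [Finsupp.single_zero, Finsupp.coe_zero, Pi.zero_apply, if_true] at h1
    rw [← h1]
    simp only [atm, Finsupp.single_zero]
  constructor
  · intro s t e r
    rw [hF, hnode]
    constructor
    · intro h
      by_contra h1
      exact h _ ⟨h1, rfl⟩ htop
    · rintro h b ⟨h1, rfl⟩
      exact absurd h h1
  · intro s t e r
    rw [hF, hnode]
    constructor
    · intro h
      by_contra h1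
      exact h _ ⟨h1, rfl⟩ htop
    · rintro h b ⟨h1, rfl⟩
      exact absurd h h1
  · intro t i e r
    rw [hF, hF, hmem]
    split_ifs with h
    · rw [h, hbase]
    · exact Iff.rfl
  · intro n
    rw [hF, hbase]
  · intro φ e r
    rw [hF, hF, hneg]
  · intro φ ψ e r
    rw [hF, hF, hF, hnode]
    show (∀ b ∈ ({.t (.neg φ, e, r), .t (.neg ψ, e, r)} : Set Nd), _) ↔ _
    simp only [Set.mem_insert_iff, Set.mem_singleton_iff, forall_eq_or_imp, forall_eq]
    rw [hneg, hneg, not_not, not_not]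
  · intro i φ e r
    rw [hF, hnode]
    constructor
    · intro h k
      have h1 := h _ ⟨k, rfl⟩
      rw [hneg, not_not] at h1
      exact h1
    · rintro h b ⟨k, rfl⟩
      rw [hneg, not_not]
      exact h k
  · intro i φ e r
    rw [hF, hnode]
    intro b hb
    exact absurd hb (Set.notMem_empty b)

theorem cert_iff {enc : T → ℕ} (henc : Injective enc) {dec : ℕ → List T × ℕ} (m : ℕ) :
    (∃ Y, Cert (tab enc dec) Y ∧ 4 * m + 3 ∈ Y) ↔
      ∃ X : ℕ → Set ℕ, X 0 = tab enc dec ∧ (∀ τ ∈ (dec m).1, tr X τ) ∧ m ∈ X (dec m).2 := by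
  constructor
  · rintro ⟨Y, hY, hm⟩
    have hT := tarski_8966 henc hY
    refine ⟨asgF {τ | cd enc (.t τ) ∈ Y}, hT.zero, ?_⟩
    have h1 : cd enc (.j m) ∈ Y := hm
    rw [cert_node_8966 henc hY] at h1
    have h2 : ∀ τ ∈ atm m (dec m).2 :: (dec m).1, tr (asgF {τ | cd enc (.t τ) ∈ Y}) τ := by
      intro τ hτ
      rw [← hT.tr_iff]
      have h3 := h1 _ ⟨τ, hτ, rfl⟩
      by_contra h4
      apply h3
      exact (hT.neg τ.1 τ.2.1 τ.2.2).2 h4
    refine ⟨fun τ hτ => h2 τ (List.mem_cons_of_mem _ hτ), ?_⟩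
    have h3 := h2 _ List.mem_cons_self
    rwa [tr_atm] at h3
  · rintro ⟨X, hX0, hX1, hX2⟩
    have hinj := cd_inj_8966 henc
    have hmemY : ∀ x, (cd enc x ∈ {k | ∀ x, cd enc x = k → trN_8966 X dec x}) ↔
        trN_8966 X dec x := by
      intro x
      constructor
      · intro h
        exact h x rfl
      · intro h x' hx'
        rw [hinj hx']
        exact h
    refine ⟨{k | ∀ x, cd enc x = k → trN_8966 X dec x}, ⟨?_, ?_⟩, ?_⟩
    · intro a
      by_cases ha : ∃ x, cd enc x = a
      · obtain ⟨x, rfl⟩ := ha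
        rw [hmemY, trN_iff_8966]
        constructor
        · intro h b hb hbY
          obtain ⟨a', b', hab, h1, h2⟩ := tab_elim_8966 hb
          rw [← hinj h1] at hab
          rw [h2, hmemY] at hbY
          exact h b' hab hbY
        · intro h b hb hbt
          apply h (cd enc b) ((mem_tab_8966 henc x b).2 hb)
          rw [hmemY]
          exact hbt
      · constructor
        · intro _ b hb
          obtain ⟨a', b', hab, h1, h2⟩ := tab_elim_8966 hb
          exact absurd ⟨a', h1.symm⟩ ha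
        · intro _ x hx
          exact absurd ⟨x, hx⟩ ha
    · intro n
      have h1 := hmemY (.u n)
      have h2 : trN_8966 X dec (.u n) ↔ n ∈ X 0 := Iff.rfl
      rw [h2, hX0] at h1
      exact h1
    · have h1 := hmemY (.j m)
      apply h1.2
      intro τ hτ
      rw [List.mem_cons] at hτ
      rcases hτ with rfl | hτ
      · rw [tr_atm]
        exact hX2
      · exact hX1 τ hτ

end Pool.Agent.Helper317.Beta

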