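import Pool.Agent.Helper317.Beta.Forms

/-!
Isomorphisms in beta-models.
-/

namespace Pool.Agent.Helper317.Beta

open Pool.Agent.Helper317.SOA Pool.Agent.Helper317.Kap Function

theorem isoP_iff (G H : CGrp) (F : Set ℕ) :
    IsoP G.dom H.dom G.addG H.addG F ↔
      ∃ f : G.dom ≃+ H.dom, F = {c : ℕ | ∃ a : G.dom, c = pr a (f a)} := by
  constructor
  · rintro ⟨h1, h2, h3, h4, h5, h6⟩
    have hex : ∀ a : G.dom, ∃ b : H.dom, pr a b ∈ F := by
      intro a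
      obtain ⟨b, hb⟩ := h2 a a.2
      obtain ⟨a', b', ha', hb', he⟩ := h1 _ hb
      obtain ⟨_, h8⟩ := pr_inj he
      exact ⟨⟨b, h8 ▸ hb'⟩, hb⟩
    choose f hf using hex
    have hinj : Function.Injective f := by
      intro a a' h
      have h7 := hf a
      rw [h] at h7
      exact Subtype.ext (h5 _ _ _ h7 (hf a'))
    have hsurj : Function.Surjective f := by
      intro b
      obtain ⟨a, ha⟩ := h3 b b.2
      obtain ⟨a', b', ha', hb', he⟩ := h1 _ ha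
      obtain ⟨h7, _⟩ := pr_inj he
      refine ⟨⟨a, h7 ▸ ha'⟩, ?_⟩
      exact Subtype.ext (h4 a _ _ (hf ⟨a, h7 ▸ ha'⟩) ha)
    have hadd : ∀ a c, f (a + c) = f a + f c := by
      intro a c
      have h7 := h6 a (f a) c (f c) ((a + c : G.dom) : ℕ) ((f a + f c : H.dom) : ℕ) (hf a) (hf c)
        ⟨a, c, rfl⟩ ⟨f a, f c, rfl⟩
      exact Subtype.ext (h4 _ _ _ (hf (a + c)) h7)
    refine ⟨⟨Equiv.ofBijective f ⟨hinj, hsurj⟩, hadd⟩, ?_⟩
    ext c
    constructor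
    · intro hc
      obtain ⟨a, b, ha, hb, rfl⟩ := h1 _ hc
      refine ⟨⟨a, ha⟩, ?_⟩
      show pr a b = pr a (f ⟨a, ha⟩)
      rw [h4 a _ _ hc (hf ⟨a, ha⟩)]
    · rintro ⟨a, rfl⟩
      exact hf a
  · rintro ⟨f, rfl⟩
    refine ⟨?_, ?_, ?_, ?_, ?_, ?_⟩
    · rintro c ⟨a, rfl⟩
      exact ⟨a, f a, a.2, (f a).2, rfl⟩
    · intro a ha
      exact ⟨f ⟨a, ha⟩, ⟨a, ha⟩, rfl⟩
    · intro b hb
      refine ⟨f.symm ⟨b, hb⟩, f.symm ⟨b, hb⟩, ?_⟩
      rw [AddEquiv.apply_symm_apply]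
    · rintro a b c ⟨a', h1⟩ ⟨a'', h2⟩
      obtain ⟨h3, h4⟩ := pr_inj h1
      obtain ⟨h5, h6⟩ := pr_inj h2
      have h7 : a' = a'' := Subtype.ext (h3.symm.trans h5)
      rw [h4, h6, h7]
    · rintro a b c ⟨a', h1⟩ ⟨a'', h2⟩
      obtain ⟨h3, h4⟩ := pr_inj h1
      obtain ⟨h5, h6⟩ := pr_inj h2
      have h7 : a' = a'' := f.injective (Subtype.ext (h4.symm.trans h6))
      rw [h3, h5, h7]
    · rintro a b c d x y ⟨a', h1⟩ ⟨c', h2⟩ ⟨a'', c'', h3⟩ ⟨b'', d'', h4⟩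
      obtain ⟨e1, e2⟩ := pr_inj h1
      obtain ⟨e3, e4⟩ := pr_inj h2
      obtain ⟨e5, e6⟩ := pr_inj h3
      obtain ⟨e7, e8⟩ := pr_inj e5
      obtain ⟨e9, e10⟩ := pr_inj h4
      obtain ⟨e11, e12⟩ := pr_inj e9
      have k1 : a' = a'' := Subtype.ext (e1.symm.trans e7)
      have k2 : c' = c'' := Subtype.ext (e3.symm.trans e8)
      have k3 : f a' = b'' := Subtype.ext (e2.symm.trans e11)
      have k4 : f c' = d'' := Subtype.ext (e4.symm.trans e12)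
      refine ⟨a' + c', ?_⟩
      rw [e6, e10, map_add, k3, k4, k1, k2]

theorem isom_of_equiv {S : Set (Set ℕ)} (hS : BetaModel S) {G H : CGrp} (hG : G.In S)
    (hH : H.In S) (h : Nonempty (G.dom ≃+ H.dom)) : Isom S G H := by
  obtain ⟨f⟩ := h
  set V : ℕ → Set ℕ := fun j => if j = 0 then G.dom else if j = 1 then H.dom else
    if j = 2 then G.addG else H.addG with hV
  have hVS : ∀ j, V j ∈ S := by
    intro j
    simp only [hV]
    split_ifs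
    · exact hG.1
    · exact hH.1
    · exact hG.2.1
    · exact hH.2.1
  have key : ∀ Y : Set ℕ, Sat (omega S) (fun _ => (0 : ℕ)) (update V 4 Y) isoF ↔
      IsoP G.dom H.dom G.addG H.addG Y := by
    intro Y
    have h1 := Sa_omega S isoF_arith (fun _ => 0) (update V 4 Y)
    refine h1.trans ?_
    rw [isoF_sat]
    rfl
  obtain ⟨Y, hY, hY'⟩ := hS isoF isoF_arith 4 (fun _ => 0) V hVS
    ⟨{c : ℕ | ∃ a : G.dom, c = pr a (f a)}, (key _).2 ((isoP_iff G H _).2 ⟨f, rfl⟩)⟩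
  obtain ⟨g, hg⟩ := (isoP_iff G H Y).1 ((key Y).1 hY')
  exact ⟨g, hg ▸ hY⟩

end Pool.Agent.Helper317.Beta
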