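import Pool.Agent.Helper317.Beta.Stmt
import Pool.Agent.Helper317.Ulm.A15

/-!
The test statements from external isomorphisms.
-/

namespace Pool.Agent.Helper317.Kap

open Function

theorem sum_equiv (G H : CGrp) : Nonempty ((G.sum H).dom ≃+ (G.dom × H.dom)) := by
  refine ⟨{ toEquiv := (prodEquiv G.dom H.dom).symm, map_add' := ?_ }⟩
  intro x y
  exact (prodEquiv G.dom H.dom).symm_apply_apply _

theorem stmtA_of {S : Set (Set ℕ)}
    (h : ∀ G H : CGrp, G.In S → H.In S → Nonempty (G.dom ≃+ H.dom) → Isom S G H) :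
    StmtA S := by
  intro G H hG hH tG tH hi
  obtain ⟨f, -⟩ := hi
  obtain ⟨e1⟩ := sum_equiv G G
  obtain ⟨e2⟩ := sum_equiv H H
  exact h G H hG hH (Ulm.kap_a tG tH ((e1.symm.trans f).trans e2))

theorem stmtB_of {S : Set (Set ℕ)}
    (h : ∀ G H : CGrp, G.In S → H.In S → Nonempty (G.dom ≃+ H.dom) → Isom S G H) :
    StmtB S := by
  intro G H hG hH tG tH h1 h2
  obtain ⟨K, -, f, -⟩ := h1
  obtain ⟨L, -, g, -⟩ := h2
  obtain ⟨e1⟩ := sum_equiv G K
  obtain ⟨e2⟩ := sum_equiv H L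
  exact h G H hG hH (Ulm.kap_b tG tH (f.trans e1) (g.trans e2))

end Pool.Agent.Helper317.Kap
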