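import Pool.Agent.Helper317.Beta.Diag
import Pool.Agent.Helper317.Beta.K3
import Pool.Agent.Helper317.Beta.K5
import Pool.Agent.Helper317.Beta.K8
import Pool.Agent.Helper317.Beta.K9

/-! The two test statements hold in all beta-models; a beta-model without `Π¹₁` comprehension. -/

namespace Pool.Agent.Helper317.Beta

open Pool.Agent.Helper317.SOA Pool.Agent.Helper317.Kap Function

theorem not_pi11 {U W : Set ℕ} {S : Set (Set ℕ)} (hS : BetaModel S) (hU : U ∈ S) (hW : W ∉ S)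
    (h : ∀ m, m ∈ W ↔ ¬ ∃ Y, Cert U Y ∧ 4 * m + 3 ∈ Y) : ¬ Pi11CA (omega S) := by
  intro hP
  have hP' := hP (.neg certF) (.neg certF_arith) 1 0 (fun _ => (0 : ℕ)) (fun _ => U) (fun _ => hU)
  apply hW
  have heq : {a : ℕ | Sat (omega S) (update (fun _ => (0 : ℕ)) 0 a) (fun _ => U)
      (.allS 1 (.neg certF))} = W := by
    ext m
    have h1 : ∀ Y : Set ℕ, Sat (omega S) (update (fun _ => (0 : ℕ)) 0 m)
        (update (fun _ => U) 1 Y) certF ↔ Cert U Y ∧ 4 * m + 3 ∈ Y := by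
      intro Y
      rw [Sa_omega S certF_arith, certF_sat]
      simp
    rw [h m]
    constructor
    · rintro hm ⟨Y, hY⟩
      obtain ⟨Z, hZ, hZ'⟩ := hS certF certF_arith 1 (update (fun _ => (0 : ℕ)) 0 m)
        (fun _ => U) (fun _ => hU) ⟨Y, (h1 Y).2 hY⟩
      exact hm Z hZ hZ'
    · intro hm Y _ hY
      exact hm ⟨Y, (h1 Y).1 hY⟩
  rw [← heq]
  exact hP'

theorem beta_stmts {S : Set (Set ℕ)} (hS : BetaModel S) : StmtA S ∧ StmtB S :=
  ⟨stmtA_of fun _ _ hG hH h => isom_of_equiv hS hG hH h,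
    stmtB_of fun _ _ hG hH h => isom_of_equiv hS hG hH h⟩

theorem exists_beta : ∃ S : Set (Set ℕ), S.Countable ∧ BetaModel S ∧ ¬ Pi11CA (omega S) := by
  obtain ⟨enc, henc⟩ := exists_injective_nat T
  obtain ⟨dec, hdec⟩ := exists_surjective_nat (List T × ℕ)
  obtain ⟨G, hG0, hGW, hG⟩ := beta_exists (Wd_diag (U := tab enc dec) hdec)
  have hB := betaModel_range hG
  refine ⟨Set.range G, Set.countable_range G, hB,
    not_pi11 hB ⟨0, hG0⟩ (fun ⟨i, hi⟩ => hGW i hi) fun m => ?_⟩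
  rw [cert_iff henc m]
  exact Iff.rfl

end Pool.Agent.Helper317.Beta
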