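import Pool.Agent.Helper317.Beta.Defs2

/-! Evaluation of the explicit formulas. -/

namespace Pool.Agent.Helper317.Beta

open Pool.Agent.Helper317.SOA Pool.Agent.Helper317.Kap Function

theorem isoF_sat (v : ℕ → ℕ) (V : ℕ → Set ℕ) :
    Sa v V isoF ↔ IsoP (V 0) (V 1) (V 2) (V 3) (V 4) := by
  simp [isoF, IsoP]

theorem certF_sat (v : ℕ → ℕ) (V : ℕ → Set ℕ) :
    Sa v V certF ↔ Cert (V 0) (V 1) ∧ 4 * v 0 + 3 ∈ V 1 := by
  have h1 : ∀ n : ℕ, n + n + (n + n) = 4 * n := fun n => by ring
  simp [certF, Cert, fourT, h1]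

theorem certF_arith : IsArith certF := by
  unfold certF iffF Fm.imp
  repeat' first | apply IsArith.and | apply IsArith.neg | apply IsArith.all | apply IsArith.eq |
    apply IsArith.lt | apply IsArith.mem

theorem isoF_arith : IsArith isoF := by
  unfold isoF Fm.imp Fm.ex
  repeat' first | apply IsArith.and | apply IsArith.neg | apply IsArith.all | apply IsArith.eq |
    apply IsArith.lt | apply IsArith.mem

end Pool.Agent.Helper317.Beta
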