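import Pool.Agent.Helper317.Beta.K1

/-!
Generic assignments.
-/

namespace Pool.Agent.Helper317.Beta

open Pool.Agent.Helper317.SOA Pool.Agent.Helper317.Kap Function

/-- requirements -/
def Rq8964 {Q : Type} (R : Q → List T → Prop) : Q ⊕ T ⊕ (ℕ × Fm × Env × Env) → List T → Prop
  | .inl q, c => R q c
  | .inr (.inl τ), c => τ ∈ c ∨ ((Fm.neg τ.1, τ.2.1, τ.2.2) : T) ∈ c
  | .inr (.inr a), c => ((Fm.all a.1 a.2.1, a.2.2.1, a.2.2.2) : T) ∈ c ∨
      ∃ k, ((Fm.neg a.2.1, a.2.2.1.update a.1 k, a.2.2.2) : T) ∈ c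

theorem tr_neg_8964 (X : ℕ → Set ℕ) (φ : Fm) (e r : Env) :
    tr X (Fm.neg φ, e, r) ↔ ¬ tr X (φ, e, r) := Iff.rfl

theorem tr_all_8964 (X : ℕ → Set ℕ) (i : ℕ) (φ : Fm) (e r : Env) :
    tr X (Fm.all i φ, e, r) ↔ ∀ k, tr X (φ, e.update i k, r) := by
  unfold tr
  simp only [Sa_all, Finsupp.coe_update]

theorem dense_8964 {U : Set ℕ} {Q : Type} (R : Q → List T → Prop)
    (hR : ∀ q c, Con U c → ∃ c', Con U (c' ++ c) ∧ R q (c' ++ c))
    (a : Q ⊕ T ⊕ (ℕ × Fm × Env × Env)) (c : List T) (hc : Con U c) :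
    ∃ c', Con U (c' ++ c) ∧ Rq8964 R a (c' ++ c) := by
  rcases a with q | τ | ⟨i, φ, e, r⟩
  · exact hR q c hc
  · obtain ⟨X, hX0, hX⟩ := hc
    by_cases h : tr X τ
    · refine ⟨[τ], ⟨X, hX0, ?_⟩, Or.inl (by simp)⟩
      intro τ' hτ'
      rcases List.mem_append.1 hτ' with h1 | h1
      · rw [List.mem_singleton.1 h1]; exact h
      · exact hX _ h1
    · refine ⟨[(Fm.neg τ.1, τ.2.1, τ.2.2)], ⟨X, hX0, ?_⟩, Or.inr (by simp)⟩
      intro τ' hτ'
      rcases List.mem_append.1 hτ' with h1 | h1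
      · rw [List.mem_singleton.1 h1]; exact h
      · exact hX _ h1
  · obtain ⟨X, hX0, hX⟩ := hc
    by_cases h : tr X (Fm.all i φ, e, r)
    · refine ⟨[(Fm.all i φ, e, r)], ⟨X, hX0, ?_⟩, Or.inl (by simp)⟩
      intro τ' hτ'
      rcases List.mem_append.1 hτ' with h1 | h1
      · rw [List.mem_singleton.1 h1]; exact h
      · exact hX _ h1
    · rw [tr_all_8964] at h
      push Not at h
      obtain ⟨k, hk⟩ := h
      refine ⟨[(Fm.neg φ, e.update i k, r)], ⟨X, hX0, ?_⟩, Or.inr ⟨k, by simp⟩⟩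
      intro τ' hτ'
      rcases List.mem_append.1 hτ' with h1 | h1
      · rw [List.mem_singleton.1 h1]; exact hk
      · exact hX _ h1

theorem generic {U : Set ℕ} {Q : Type} [Countable Q] (R : Q → List T → Prop)
    (hR : ∀ q c, Con U c → ∃ c', Con U (c' ++ c) ∧ R q (c' ++ c)) :
    ∃ G : ℕ → Set ℕ, G 0 = U ∧ ∀ q, ∃ c, R q c ∧ ∀ τ ∈ c, tr G τ := by
  have hne : Nonempty (Q ⊕ T ⊕ (ℕ × Fm × Env × Env)) :=
    ⟨Sum.inr (Sum.inl (Fm.eq .zero .zero, 0, 0))⟩
  obtain ⟨f, hf⟩ := exists_surjective_nat (Q ⊕ T ⊕ (ℕ × Fm × Env × Env))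
  have step : ∀ (n : ℕ) (c : {c : List T // Con U c}), ∃ c2 : {c : List T // Con U c},
      (∀ τ ∈ c.1, τ ∈ c2.1) ∧ Rq8964 R (f n) c2.1 := by
    rintro n ⟨c, hc⟩
    obtain ⟨c', h1, h2⟩ := dense_8964 R hR (f n) c hc
    exact ⟨⟨c' ++ c, h1⟩, fun τ hτ => List.mem_append_right _ hτ, h2⟩
  choose g hg1 hg2 using step
  have hc0 : Con U [] := ⟨fun _ => U, rfl, fun τ hτ => absurd hτ (by simp)⟩
  obtain ⟨C, hCs⟩ : ∃ C : ℕ → {c : List T // Con U c}, ∀ n, C (n + 1) = g n (C n) :=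
    ⟨fun n => Nat.rec ⟨[], hc0⟩ (fun n c => g n c) n, fun _ => rfl⟩
  have hmono : ∀ n m, n ≤ m → ∀ τ ∈ (C n).1, τ ∈ (C m).1 := by
    intro n m hnm
    induction m, hnm using Nat.le_induction with
    | base => exact fun τ h => h
    | succ m _ ih =>
      intro τ hτ
      rw [hCs]
      exact hg1 _ _ _ (ih τ hτ)
  have hRC : ∀ a, ∃ n, Rq8964 R a (C n).1 := by
    intro a
    obtain ⟨n, rfl⟩ := hf a
    refine ⟨n + 1, ?_⟩
    rw [hCs]
    exact hg2 _ _
  obtain ⟨F, hF⟩ : ∃ F : Set T, ∀ τ, τ ∈ F ↔ ∃ n, τ ∈ (C n).1 :=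
    ⟨{τ | ∃ n, τ ∈ (C n).1}, fun _ => Iff.rfl⟩
  -- common solutions
  have hcom : ∀ l : List T, (∀ τ ∈ l, τ ∈ F) → ∃ X : ℕ → Set ℕ, X 0 = U ∧ ∀ τ ∈ l, tr X τ := by
    intro l hl
    have h1 : ∃ n, ∀ τ ∈ l, τ ∈ (C n).1 := by
      induction l with
      | nil => exact ⟨0, fun τ hτ => absurd hτ (by simp)⟩
      | cons a l ih =>
        obtain ⟨n, hn⟩ := ih fun τ hτ => hl τ (List.mem_cons_of_mem _ hτ)
        obtain ⟨m, hm⟩ := (hF a).1 (hl a (by simp))
        refine ⟨max n m, fun τ hτ => ?_⟩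
        rcases List.mem_cons.1 hτ with rfl | h
        · exact hmono _ _ (le_max_right _ _) _ hm
        · exact hmono _ _ (le_max_left _ _) _ (hn τ h)
    obtain ⟨n, hn⟩ := h1
    obtain ⟨X, hX0, hX⟩ := (C n).2
    exact ⟨X, hX0, fun τ hτ => hX τ (hn τ hτ)⟩
  have hdec : ∀ φ e r, ((φ, e, r) : T) ∈ F ∨ ((Fm.neg φ, e, r) : T) ∈ F := by
    intro φ e r
    obtain ⟨n, hn⟩ := hRC (Sum.inr (Sum.inl (φ, e, r)))
    rcases hn with h | h
    · exact Or.inl ((hF _).2 ⟨n, h⟩)
    · exact Or.inr ((hF _).2 ⟨n, h⟩)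
  have hent : ∀ (l : List T) φ e r, (∀ τ ∈ l, τ ∈ F) →
      (∀ X : ℕ → Set ℕ, X 0 = U → (∀ τ ∈ l, tr X τ) → tr X (φ, e, r)) → ((φ, e, r) : T) ∈ F := by
    intro l φ e r hl h
    rcases hdec φ e r with h1 | h1
    · exact h1
    · exfalso
      obtain ⟨X, hX0, hX⟩ := hcom ((Fm.neg φ, e, r) :: l) (by
        intro τ hτ
        rcases List.mem_cons.1 hτ with rfl | h2
        · exact h1
        · exact hl τ h2)
      have h3 : ¬ tr X (φ, e, r) := hX (Fm.neg φ, e, r) (by simp)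
      exact h3 (h X hX0 fun τ hτ => hX τ (List.mem_cons_of_mem _ hτ))
  have hT : Tarski U F := by
    constructor
    · intro s t e r
      constructor
      · intro h
        obtain ⟨X, hX0, hX⟩ := hcom [(Fm.eq s t, e, r)] (by simpa using h)
        exact hX (Fm.eq s t, e, r) (by simp)
      · intro h
        exact hent [] _ _ _ (by simp) fun X _ _ => h
    · intro s t e r
      constructor
      · intro h
        obtain ⟨X, hX0, hX⟩ := hcom [(Fm.lt s t, e, r)] (by simpa using h)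
        exact hX (Fm.lt s t, e, r) (by simp)
      · intro h
        exact hent [] _ _ _ (by simp) fun X _ _ => h
    · intro t i e r
      constructor
      · intro h
        refine hent [(Fm.mem t i, e, r)] _ _ _ (by simpa using h) fun X _ hX => ?_
        have h1 : tr X (Fm.mem t i, e, r) := hX (Fm.mem t i, e, r) (by simp)
        exact (tr_atm X _ _).2 h1
      · intro h
        refine hent [atm (val e t) (r i)] _ _ _ (by simpa using h) fun X _ hX => ?_
        have h1 : tr X (atm (val e t) (r i)) := hX (atm (val e t) (r i)) (by simp)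
        exact (tr_atm X _ _).1 h1
    · intro n
      constructor
      · intro h
        obtain ⟨X, hX0, hX⟩ := hcom [atm n 0] (by simpa using h)
        have h1 : tr X (atm n 0) := hX (atm n 0) (by simp)
        rw [tr_atm, hX0] at h1
        exact h1
      · intro h
        refine hent [] _ _ _ (by simp) fun X hX0 _ => ?_
        exact (tr_atm X n 0).2 (by rw [hX0]; exact h)
    · intro φ e r
      constructor
      · intro h h'
        obtain ⟨X, hX0, hX⟩ := hcom [(Fm.neg φ, e, r), (φ, e, r)] (by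
          intro τ hτ
          rcases List.mem_cons.1 hτ with rfl | h2
          · exact h
          · rw [List.mem_singleton.1 h2]; exact h')
        have h1 : ¬ tr X (φ, e, r) := hX (Fm.neg φ, e, r) (by simp)
        exact h1 (hX (φ, e, r) (by simp))
      · intro h
        rcases hdec φ e r with h1 | h1
        · exact absurd h1 h
        · exact h1
    · intro φ ψ e r
      constructor
      · intro h
        constructor
        · refine hent [(Fm.and φ ψ, e, r)] _ _ _ (by simpa using h) fun X _ hX => ?_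
          have h1 : tr X (Fm.and φ ψ, e, r) := hX (Fm.and φ ψ, e, r) (by simp)
          exact h1.1
        · refine hent [(Fm.and φ ψ, e, r)] _ _ _ (by simpa using h) fun X _ hX => ?_
          have h1 : tr X (Fm.and φ ψ, e, r) := hX (Fm.and φ ψ, e, r) (by simp)
          exact h1.2
      · rintro ⟨h, h'⟩
        refine hent [(φ, e, r), (ψ, e, r)] _ _ _ (by
          intro τ hτ
          rcases List.mem_cons.1 hτ with rfl | h2
          · exact h
          · rw [List.mem_singleton.1 h2]; exact h') fun X _ hX => ?_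
        exact ⟨hX (φ, e, r) (by simp), hX (ψ, e, r) (by simp)⟩
    · intro i φ e r
      constructor
      · intro h k
        refine hent [(Fm.all i φ, e, r)] _ _ _ (by simpa using h) fun X _ hX => ?_
        have h1 : tr X (Fm.all i φ, e, r) := hX (Fm.all i φ, e, r) (by simp)
        exact (tr_all_8964 X i φ e r).1 h1 k
      · intro h
        obtain ⟨n, hn⟩ := hRC (Sum.inr (Sum.inr (i, φ, e, r)))
        rcases hn with h1 | ⟨k, h1⟩
        · exact (hF _).2 ⟨n, h1⟩
        · exfalso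
          have h2 : ((Fm.neg φ, e.update i k, r) : T) ∈ F := (hF _).2 ⟨n, h1⟩
          obtain ⟨X, hX0, hX⟩ := hcom [(Fm.neg φ, e.update i k, r), (φ, e.update i k, r)] (by
            intro τ hτ
            rcases List.mem_cons.1 hτ with rfl | h3
            · exact h2
            · rw [List.mem_singleton.1 h3]; exact h k)
          have h4 : ¬ tr X (φ, e.update i k, r) := hX (Fm.neg φ, e.update i k, r) (by simp)
          exact h4 (hX (φ, e.update i k, r) (by simp))
    · intro i φ e r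
      exact hent [] _ _ _ (by simp) fun X _ _ => Sa_allS.2 trivial
  refine ⟨asgF F, hT.zero, fun q => ?_⟩
  obtain ⟨n, hn⟩ := hRC (Sum.inl q)
  exact ⟨(C n).1, hn, fun τ hτ => (hT.tr_iff τ).1 ((hF τ).2 ⟨n, hτ⟩)⟩

end Pool.Agent.Helper317.Beta
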